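import Pool.Agent.H.MP_40d550_an.C

namespace Pool.Agent.Results.MP_40d550_an.Yes

theorem result : ∃ (E : Type) (_ : NormedAddCommGroup E) (_ : NormedSpace ℝ E)
    (_ : CompleteSpace E),
    (∀ (Y : Type) [NormedAddCommGroup Y] [NormedSpace ℝ Y] [FiniteDimensional ℝ Y]
      (X : Submodule ℝ Y) (f : X →ₗᵢ[ℝ] E) (ε : ℝ), 0 < ε → ∃ g : Y →ₗ[ℝ] E,
        (∀ x : X, g x = f x) ∧ ∀ y, (1 + ε)⁻¹ * ‖y‖ ≤ ‖g y‖ ∧ ‖g y‖ ≤ (1 + ε) * ‖y‖) ∧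
    ¬ TopologicalSpace.SeparableSpace E ∧
    (∃ K : Set E, IsCompact (toWeakSpace ℝ E '' K) ∧ Dense (Submodule.span ℝ K : Set E)) ∧
    ∃ (Γ : Type) (T : WeakDual ℝ E →L[ℝ] (Γ → ℝ)),
      Function.Injective T ∧ ∀ φ, (Function.support (T φ)).Countable := by
  obtain ⟨X, i1, i2, i3, u, h⟩ := Pool.Agent.H.MP_40d550_an.main
  have : Uncountable (Cardinal.aleph 1 : Cardinal.{0}).ord.ToType :=
    Cardinal.aleph0_lt_mk_iff.1 (by simp)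
  exact ⟨X, i1, i2, i3, h.gur, h.nsep, h.wcg⟩

end Pool.Agent.Results.MP_40d550_an.Yes
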